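import Pool.Agent.helper13.U4.SpecD

/-! # Row DD of project U4 -/

set_option autoImplicit false

namespace Pool.Agent.U4

open Pool.Agent.UL

theorem DD_par (k q h v : ℕ) (hP : Par k q h v) :
    4 ≤ h ∧ h % 2 = 0 ∧ v % 2 = 1 ∧ 15 * h ≤ v + 1 := by
  obtain ⟨hk, hh, hq, hv⟩ := hP
  obtain ⟨j, rfl⟩ : ∃ j, k = j + 2 := ⟨k - 2, by omega⟩
  have hpos : 1 ≤ 2 ^ j := Nat.one_le_two_pow
  have e : h = 4 * 2 ^ j := by rw [hh, pow_add]; ring
  have h4 : 4 ≤ h := by omega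
  have he : h % 2 = 0 := by omega
  refine ⟨h4, he, ?_, ?_⟩
  · have e2 : v + 1 = 2 * (h * q) + h := by rw [hv]; ring
    omega
  · have : 14 * h ≤ 2 * h * q := by nlinarith
    omega

/-- the true cells at the times `2h-1, 3h-1, v-h, v-2h` -/
theorem DD_late (k q h v : ℕ) (x : ℕ → ℕ → Bool) (hP : Par k q h v) (hFL : FL h q v x)
    (r : ℕ) (hr : r + 2 ≤ 2 * h) (hr4 : r % 4 ≠ 3) :
    x (2 * h - 1) r = true ∧ x (3 * h - 1) r = true ∧ x (v - h) r = true ∧ x (v - 2 * h) r = true := by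
  obtain ⟨p4, p2, pv, p15⟩ := DD_par k q h v hP
  obtain ⟨hk, hh, hq, hv⟩ := hP
  have e2 : v + 1 = 2 * (h * q) + h := by rw [hv]; ring
  obtain ⟨s, rfl⟩ : ∃ s, q = s + 1 := ⟨q - 1, by omega⟩
  have e3 : h * (s + 1) = h * s + h := by ring
  have a1 := hFL.fd 1 r le_rfl (by omega) hr hr4
  have a2 := hFL.fd 2 r (by omega) (by omega) hr hr4
  have a3 := hFL.fd (2 * s + 1) r (by omega) (by omega) hr hr4
  have a4 := hFL.fd (2 * s) r (by omega) (by omega) hr hr4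
  have b3 : (2 * s + 1) * h = 2 * (h * s) + h := by ring
  have b4 : 2 * s * h = 2 * (h * s) := by ring
  have c1 : 1 * h + (h - 1) = 2 * h - 1 := by omega
  have c2 : 2 * h + (h - 1) = 3 * h - 1 := by omega
  have c3 : (2 * s + 1) * h + (h - 1) = v - h := by rw [b3]; omega
  have c4 : 2 * s * h + (h - 1) = v - 2 * h := by rw [b4]; omega
  rw [c1] at a1
  rw [c2] at a2
  rw [c3] at a3
  rw [c4] at a4
  exact ⟨a1, a2, a3, a4⟩

/-- the power of 2 below `(ρ-1)/2` -/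
theorem DD_log (k h ρ : ℕ) (hh : h = 2 ^ k) (h5 : 5 ≤ ρ) (h3 : ρ + 3 ≤ 2 * h) (h1 : ρ % 4 = 1) :
    ∃ j i, 1 ≤ j ∧ 2 * 2 ^ j ≤ h ∧ ρ = 2 * 2 ^ j + 1 + 4 * i ∧ 4 * i + 4 ≤ 2 * 2 ^ j ∧ 2 ≤ 2 ^ j := by
  obtain ⟨m, hm⟩ : ∃ m, ρ = 4 * m + 1 := ⟨ρ / 4, by omega⟩
  have hm1 : 1 ≤ m := by omega
  have l1 : 2 ^ (Nat.log 2 m) ≤ m := Nat.pow_log_le_self 2 (by omega)
  have l2 : m < 2 ^ (Nat.log 2 m + 1) := Nat.lt_pow_succ_log_self (by omega) m
  obtain ⟨l, hl⟩ : ∃ l, Nat.log 2 m = l := ⟨_, rfl⟩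
  rw [hl] at l1 l2
  have e1 : 2 ^ (l + 1) = 2 * 2 ^ l := by rw [pow_succ]; ring
  have hpos : 1 ≤ 2 ^ l := Nat.one_le_two_pow
  refine ⟨l + 1, m - 2 ^ l, by omega, ?_, by omega, by omega, by omega⟩
  have hlt : 2 ^ (l + 1) < 2 ^ k := by omega
  have hlk : l + 1 < k := (Nat.pow_lt_pow_iff_right (by omega)).1 hlt
  have hle : 2 ^ (l + 2) ≤ 2 ^ k := Nat.pow_le_pow_right (by omega) (by omega)
  have e2 : 2 ^ (l + 2) = 2 * 2 ^ (l + 1) := by rw [pow_succ 2 (l + 1)]; ring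
  omega

theorem DD : DD_stmt := by
  intro k q h v x hP hFL ρ σ h5 h3 h1 hσ
  obtain ⟨p4, p2, pv, p15⟩ := DD_par k q h v hP
  by_cases hA : v ≤ σ + 2 * h
  · obtain ⟨a1, a2, _, _⟩ := DD_late k q h v x hP hFL ρ (by omega) (by omega)
    refine ⟨ρ, 2 * h - 1, 0, σ - (2 * h - 1), ρ, 3 * h - 1, 0, σ - (3 * h - 1),
      ⟨a1, hFL.r0 _ (by omega), by omega, by omega, by omega, Or.inl ⟨by omega, by omega⟩⟩,
      ⟨a2, hFL.r0 _ (by omega), by omega, by omega, by omega, Or.inl ⟨by omega, by omega⟩⟩,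
      by omega, by omega⟩
  · rcases Nat.mod_two_eq_zero_or_one σ with hs | hs
    · obtain ⟨j, i, hj, hjh, hρ, hi, hH⟩ := DD_log k h ρ hP.hh h5 h3 h1
      have f0 := hFL.ff j hj hjh i hi
      have f1 := hFL.fe j hj hjh (4 * i) (by omega) (by omega)
      have f2 := hFL.fe j hj hjh (4 * i + 1) (by omega) (by omega)
      have f3 := hFL.fe j hj hjh (4 * i + 2) (by omega) (by omega)
      obtain ⟨H, hHe⟩ : ∃ H, 2 ^ j = H := ⟨_, rfl⟩
      rw [hHe] at f0 f1 f2 f3 hjh hρ hi hH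
      have g0 : 2 * H - 1 + 4 * i = ρ - 2 := by omega
      have g2 : 2 * H - 1 + (4 * i + 1) = ρ - 1 := by omega
      have g3 : 2 * H - 1 + (4 * i + 2) = ρ := by omega
      rw [g0] at f0 f1
      rw [g2] at f2
      rw [g3] at f3
      by_cases c1 : σ + 4 ≤ 2 * H
      · exact ⟨ρ - 2, 2 * H - 2, 0, σ + v - (2 * H - 2), ρ - 2, 2 * H - 1, 0, σ + v - (2 * H - 1),
          ⟨f0, hFL.r0 _ (by omega), by omega, by omega, by omega, Or.inr ⟨by omega, by omega⟩⟩,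
          ⟨f1, hFL.r0 _ (by omega), by omega, by omega, by omega, Or.inr ⟨by omega, by omega⟩⟩,
          by omega, by omega⟩
      · by_cases c2 : σ + 2 = 2 * H
        · exact ⟨ρ - 2, 2 * H - 1, 0, v - 1, 2, 0, ρ - 2, 2 * H - 2,
            ⟨f1, hFL.r0 _ (by omega), by omega, by omega, by omega, Or.inr ⟨by omega, by omega⟩⟩,
            ⟨hFL.r20, f0, by omega, by omega, by omega, Or.inl ⟨by omega, by omega⟩⟩,
            by omega, by omega⟩
        · exact ⟨ρ, 2 * H - 1, 0, σ - (2 * H - 1), ρ - 1, 2 * H - 1, 1, σ - (2 * H - 1),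
            ⟨f3, hFL.r0 _ (by omega), by omega, by omega, by omega, Or.inl ⟨by omega, by omega⟩⟩,
            ⟨f2, hFL.r1 _ (by omega) (by omega), by omega, by omega, by omega,
              Or.inl ⟨by omega, by omega⟩⟩,
            by omega, by omega⟩
    · obtain ⟨_, _, a3, a4⟩ := DD_late k q h v x hP hFL (ρ - 3) (by omega) (by omega)
      exact ⟨ρ - 3, v - h, 1, σ + h, ρ - 3, v - 2 * h, 1, σ + 2 * h,
        ⟨a3, hFL.r1 _ (by omega) (by omega), by omega, by omega, by omega, Or.inr ⟨by omega, by omega⟩⟩,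
        ⟨a4, hFL.r1 _ (by omega) (by omega), by omega, by omega, by omega, Or.inr ⟨by omega, by omega⟩⟩,
        by omega, by omega⟩

end Pool.Agent.U4
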