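import Pool.Agent.helper13.U4.SpecY

/-!
# Project U4 (MP_62ffdf_lc), row MBI
-/

set_option autoImplicit false

namespace Pool.Agent.U4

open Pool.Agent.UL

theorem MBI_par (k q h v : ℕ) (hP : Par k q h v) :
    4 ≤ h ∧ h % 2 = 0 ∧ v % 2 = 1 ∧ 15 * h ≤ v + 1 := by
  obtain ⟨hk, hh, hq, hv⟩ := hP
  obtain ⟨j, rfl⟩ : ∃ j, k = j + 2 := ⟨k - 2, by omega⟩
  have hpos : 1 ≤ 2 ^ j := Nat.one_le_two_pow
  have e : h = 4 * 2 ^ j := by rw [hh, pow_add]; ring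
  have h4 : 4 ≤ h := by omega
  have he : h % 2 = 0 := by omega
  refine ⟨h4, he, ?_, ?_⟩
  · have e2 : v + 1 = 2 * (h * q) + h := by rw [hv]; ring
    omega
  · have : 14 * h ≤ 2 * h * q := by nlinarith
    omega

theorem MBI_val (v : ℕ) (F : ℤ → Bool) (h ρ σ t r : ℕ) (hr : ρ = r + (2 * h + 6)) (ht : t ≤ σ) :
    yF v F ((v : ℤ) * ρ + 2 * σ) t r = xF v F (σ - t) (2 * h + 6) := by
  obtain ⟨u, hu⟩ : ∃ u, σ = t + u := ⟨σ - t, by omega⟩
  have e : σ - t = u := by omega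
  rw [e]
  unfold yF xF
  congr 1
  rw [hr, hu]
  push_cast
  ring

theorem MBI (h1 : YST_stmt) (h2 : STC_stmt) (h3 : GRW_stmt) (h4 : ONB_stmt) (h5 : YVA_stmt) :
    MBI_stmt := by
  intro k q h v F ρ σ hP hF hFL hFH hKP hρ1 hρ2 hσ1 hσ2 hor
  by_contra hT
  obtain ⟨p4, p2, pv, p15⟩ := MBI_par k q h v hP
  have hOne := h4 k q h v F ρ σ hP hF hρ1 hσ1 hσ2 hor hT
  obtain ⟨_, y2, y3⟩ := h5 k q h v F ρ σ hP hF
  obtain ⟨y3a, y3b⟩ := y3 hρ1
  obtain ⟨hSC, _, _⟩ := h1 k q h v (h + 8) (xF v F) (yF v F ((v : ℤ) * ρ + 2 * σ)) hP hFL hFH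
    (by omega) (by omega) hOne y3a y3b
  have hST := h2 h _ p4 p2 hSC
  obtain ⟨r, hr⟩ : ∃ r, ρ = r + (2 * h + 6) := ⟨ρ - (2 * h + 6), by omega⟩
  by_cases hc : r ≤ 2 * h
  · obtain ⟨t, ht1, ht2, ht3⟩ : ∃ t, h ≤ t ∧ t ≤ h + 1 ∧ t % 2 = σ % 2 := by
      rcases Nat.mod_two_eq_zero_or_one σ with hs | hs
      · exact ⟨h, le_rfl, by omega, by omega⟩
      · exact ⟨h + 1, by omega, le_rfl, by omega⟩
    have e1 := hST t ht2 r (by omega)
    have e2 := MBI_val v F h ρ σ t r hr (by omega)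
    have e3 := hFH.b6 (σ - t) (by omega) (by omega) (by omega)
    rw [e2, e3] at e1
    exact Bool.noConfusion e1
  · obtain ⟨t, ht1, ht2, ht3⟩ : ∃ t, h + 5 ≤ t ∧ t ≤ h + 6 ∧ t % 2 = σ % 2 := by
      rcases Nat.mod_two_eq_zero_or_one σ with hs | hs
      · exact ⟨h + 6, by omega, le_rfl, by omega⟩
      · exact ⟨h + 5, le_rfl, by omega, by omega⟩
    have hG := h3 h v (h + 8) (h + 6) (xF v F) (yF v F ((v : ℤ) * ρ + 2 * σ)) p4 (by omega) (by omega)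
      hOne (y2 (by omega)) (by omega) (Or.inl (by omega))
      (fun t a1 a2 a3 => by
        have e : t - 1 + 1 = t := by omega
        refine ⟨hFL.r0 (t - 1) (by omega), ?_, ?_, ?_⟩
        · rw [e]; exact hFL.r0 t (by omega)
        · rw [e]; exact hFL.r1 t (by omega) a3
        · rw [e]; exact hFL.r2 t (by omega) (by omega) a3)
      (fun t a1 a2 a3 => hKP t a1 (by omega) a3)
      (fun r hr => hST (h + 1) le_rfl r hr)
    have e1 := hG t (by omega) ht2 r (by omega) (by omega)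
    have e2 := MBI_val v F h ρ σ t r hr (by omega)
    have e3 := hFH.b6 (σ - t) (by omega) (by omega) (by omega)
    rw [e2, e3] at e1
    exact Bool.noConfusion e1

end Pool.Agent.U4
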