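import Pool.Agent.helper13.U4.Spec

/-!
# Project U4 (MP_62ffdf_lc), row ZWN
-/

set_option autoImplicit false

namespace Pool.Agent.U4

open Pool.Agent.UL

theorem ZWN_nat (v : ℕ) (F : ℤ → Bool) (hv : 1 ≤ v) (hF : IsF v F) (n : ℕ) :
    ∃ m : ℤ, (n : ℤ) ≤ m ∧ m < (n : ℤ) + 2 * v + 2 ∧ F m = true := by
  induction n with
  | zero => exact ⟨0, by simp, by push_cast; omega, hF.zero⟩
  | succ n ih =>
    obtain ⟨m, h1, h2, h3⟩ := ih
    by_cases hm : (n : ℤ) + 1 ≤ m
    · exact ⟨m, by push_cast; exact hm, by push_cast; omega, h3⟩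
    · have hmn : m = (n : ℤ) := by omega
      rw [hmn] at h3
      by_cases c1 : F ((n : ℤ) + 2 * v) = true
      · exact ⟨(n : ℤ) + 2 * v, by push_cast; omega, by push_cast; omega, c1⟩
      · by_cases c2 : F ((n : ℤ) + v) = true
        · exact ⟨(n : ℤ) + v, by push_cast; omega, by push_cast; omega, c2⟩
        · refine ⟨(n : ℤ) + 2 * v + 2, by push_cast; omega, by push_cast; omega, ?_⟩
          have hr := hF.recF ((n : ℤ) + 2 * v + 2) (by omega)
          have e1 : (n : ℤ) + 2 * v + 2 - 2 = (n : ℤ) + 2 * v := by ring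
          have e2 : (n : ℤ) + 2 * v + 2 - v - 2 = (n : ℤ) + v := by ring
          have e3 : (n : ℤ) + 2 * v + 2 - 2 * v - 2 = (n : ℤ) := by ring
          have d1 : F ((n : ℤ) + 2 * v) = false := by
            cases hh : F ((n : ℤ) + 2 * v) with
            | true => exact absurd hh c1
            | false => rfl
          have d2 : F ((n : ℤ) + v) = false := by
            cases hh : F ((n : ℤ) + v) with
            | true => exact absurd hh c2
            | false => rfl
          rw [e1, e2, e3, d1, d2, h3] at hr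
          rw [hr]
          rfl

theorem ZWN : ZWN_stmt := by
  intro v F hv hF a ha
  obtain ⟨m, h1, h2, h3⟩ := ZWN_nat v F hv hF a.toNat
  have e : ((a.toNat : ℕ) : ℤ) = a := Int.toNat_of_nonneg ha
  rw [e] at h1 h2
  exact ⟨m, h1, h2, h3⟩

end Pool.Agent.U4
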